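import Pool.Agent.TH935.HM5
import Pool.Agent.Zk38.Gen.A

set_option autoImplicit false

/-!
# The least primes in almost all classes: the exceptional moduli are thin
-/

namespace Pool.Agent.Zk38.Lp

open Finset
open Pool.Agent.Zk38.Gen (Thin)
open Pool.Agent.TH935.HM (Lp lp_poly)

theorem lp_thin (κ : ℕ) (ε : ℝ) (hε : 0 < ε) (hε1 : ε ≤ 1) : Thin {a | ¬ Lp ε κ a a} := by
  classical
  intro U
  obtain ⟨x₀, h⟩ := lp_poly Polynomial.X (by simp) (by simp) κ U ε hε hε1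
  refine ⟨x₀, fun X hX => ?_⟩
  refine le_trans (le_of_eq (by congr!)) (h X hX ((Icc 1 X).filter (fun n => ¬ Lp ε κ n n)) (filter_subset _ _) ?_)
  intro m hm hcon
  rw [mem_filter] at hm
  apply hm.2
  have := hcon.2
  rwa [Polynomial.eval_X, Int.toNat_natCast] at this

lemma Lp.mono {ε ε' : ℝ} {κ κ' a : ℕ} (ha : 3 ≤ a) (h : Lp ε κ a a) (hε : ε ≤ ε') (hκ : κ' ≤ κ) : Lp ε' κ' a a := by
  intro lam h1 h2
  have hL : 1 ≤ Real.log a := by
    have h3 : (3 : ℝ) ≤ a := by exact_mod_cast ha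
    rw [Real.le_log_iff_exp_le (by linarith)]
    have := Real.exp_one_lt_d9
    linarith
  obtain ⟨h3, h4⟩ := h lam h1 (h2.trans (pow_le_pow_right₀ hL hκ))
  have hφ : (0 : ℝ) ≤ Nat.totient a := Nat.cast_nonneg _
  refine ⟨h3.trans ?_, fun η hη => (h4 η hη).trans ?_⟩
  · gcongr
  · gcongr

end Pool.Agent.Zk38.Lp
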